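import Mathlib
import Pool.Agent.R812.CoSoberProd

/-!
# Products of co-sober spaces need not be co-sober
-/

set_option autoImplicit false

open Set

namespace Pool.Agent.Results.MP_8d849c_gt.CoSoberSquare

open Pool.Agent.R812.CoSober

/-- There is a countable compact `T₁` space `X` which is co-sober, but whose square `X × X` and
whose powers `X ^ I`, for each index set `I` with more than one element, are not co-sober. -/
theorem result : ∃ (X : Type) (_ : TopologicalSpace X),
    Countable X ∧ CompactSpace X ∧ T1Space X ∧ CoSober X ∧
      ¬ CoSober (X × X) ∧ ∀ I : Type, Nontrivial I → ¬ CoSober (I → X) :=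
  ⟨Pool.Agent.R812.CoSober.X, inferInstance, inferInstance, inferInstance, inferInstance,
    coSober_X, not_coSober_prod, fun I _ => not_coSober_pi I⟩

end Pool.Agent.Results.MP_8d849c_gt.CoSoberSquare
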